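import Mathlib
import Pool.Agent.MP_305ad1_co.Graph

open Pool.Agent.MP305

namespace Pool.Agent.Results.MP_305ad1_co.OddCycles

/-- The edges `{i,j}` of a graph on `Fin n`, written as pairs with `i < j`. -/
abbrev Edge {n : ℕ} (G : SimpleGraph (Fin n)) : Type :=
  {p : Fin n × Fin n // p.1 < p.2 ∧ G.Adj p.1 p.2}

/-- The binomial `x_{i,k} x_{j,l} - x_{i,l} x_{j,k}` attached to `{i,j}` and `{k,l}`. -/
noncomputable def binomial (F : Type*) [Field F] {n m : ℕ} (e : Fin n × Fin n)
    (e' : Fin m × Fin m) : MvPolynomial (Fin n × Fin m) F :=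
  MvPolynomial.X (e.1, e'.1) * MvPolynomial.X (e.2, e'.2)
    - MvPolynomial.X (e.1, e'.2) * MvPolynomial.X (e.2, e'.1)

/-- The rows of the Jacobian matrix of the generators of `J_{G,H}`, over the field of rational
functions in the variables. -/
noncomputable def jacobianRow (F : Type*) [Field F] {n m : ℕ} (G : SimpleGraph (Fin n))
    (H : SimpleGraph (Fin m)) (r : Edge G × Edge H) :
    Fin n × Fin m → FractionRing (MvPolynomial (Fin n × Fin m) F) :=
  fun v => algebraMap (MvPolynomial (Fin n × Fin m) F)
    (FractionRing (MvPolynomial (Fin n × Fin m) F))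
    (MvPolynomial.pderiv v (binomial F r.1.1 r.2.1))

/-- The basis property: the rows of the Jacobian matrix of `(G,H)` are linearly independent and
span the whole row space of the Jacobian matrix of the pair of complete graphs. -/
def BasisProperty (F : Type*) [Field F] {n m : ℕ} (G : SimpleGraph (Fin n))
    (H : SimpleGraph (Fin m)) : Prop :=
  LinearIndependent (FractionRing (MvPolynomial (Fin n × Fin m) F)) (jacobianRow F G H) ∧
  Submodule.span (FractionRing (MvPolynomial (Fin n × Fin m) F))
      (Set.range (jacobianRow F G H)) =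
    Submodule.span (FractionRing (MvPolynomial (Fin n × Fin m) F))
      (Set.range (jacobianRow F (⊤ : SimpleGraph (Fin n)) (⊤ : SimpleGraph (Fin m))))

/-- `G` is a vertex-disjoint union of cycles of odd length. -/
def IsUnionOfOddCycles {n : ℕ} (G : SimpleGraph (Fin n)) : Prop :=
  ∀ c : G.ConnectedComponent, ∃ k : ℕ, 3 ≤ k ∧ Odd k ∧
    Nonempty (c.toSimpleGraph ≃g SimpleGraph.cycleGraph k)

section
variable {n m : ℕ} {F : Type*} [Field F]

noncomputable abbrev xx (F : Type*) [Field F] {n m : ℕ} (i : Fin n) (k : Fin m) :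
    FractionRing (MvPolynomial (Fin n × Fin m) F) :=
  algebraMap (MvPolynomial (Fin n × Fin m) F) (FractionRing (MvPolynomial (Fin n × Fin m) F))
    (MvPolynomial.X (i, k))

theorem xx_ne_zero (i : Fin n) (k : Fin m) : xx F i k ≠ 0 := by
  unfold xx
  rw [Ne, map_eq_zero_iff _ (IsFractionRing.injective _ _)]
  exact MvPolynomial.X_ne_zero _

theorem row_dot (G : SimpleGraph (Fin n)) (H : SimpleGraph (Fin m)) (r : Edge G × Edge H)
    (y : Fin n × Fin m → FractionRing (MvPolynomial (Fin n × Fin m) F)) :
    ∑ v, jacobianRow F G H r v * y v =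
      xx F r.1.1.1 r.2.1.1 * y (r.1.1.2, r.2.1.2) + xx F r.1.1.2 r.2.1.2 * y (r.1.1.1, r.2.1.1)
      - xx F r.1.1.1 r.2.1.2 * y (r.1.1.2, r.2.1.1)
      - xx F r.1.1.2 r.2.1.1 * y (r.1.1.1, r.2.1.2) := by
  have hrow : ∀ v, jacobianRow F G H r v =
      xx F r.1.1.1 r.2.1.1 * (if v = (r.1.1.2, r.2.1.2) then 1 else 0)
      + xx F r.1.1.2 r.2.1.2 * (if v = (r.1.1.1, r.2.1.1) then 1 else 0)
      - xx F r.1.1.1 r.2.1.2 * (if v = (r.1.1.2, r.2.1.1) then 1 else 0)
      - xx F r.1.1.2 r.2.1.1 * (if v = (r.1.1.1, r.2.1.2) then 1 else 0) := by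
    intro v
    have hs : ∀ u : Fin n × Fin m, (MvPolynomial.pderiv v) (MvPolynomial.X u : MvPolynomial _ F) =
        if v = u then 1 else 0 := by
      intro u
      rw [MvPolynomial.pderiv_X]
      by_cases h : v = u
      · subst h; simp
      · rw [if_neg h, Pi.single_eq_of_ne (Ne.symm h)]
    simp only [jacobianRow, binomial, xx, map_sub, Derivation.leibniz, smul_eq_mul, map_add,
      map_mul, hs]
    have hm : ∀ u : Fin n × Fin m, (algebraMap (MvPolynomial (Fin n × Fin m) F)
        (FractionRing (MvPolynomial (Fin n × Fin m) F))) (if v = u then 1 else 0) =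
        if v = u then 1 else 0 := by
      intro u; split_ifs <;> simp
    simp only [hm]
    ring
  simp only [hrow, sub_mul, add_mul, Finset.sum_sub_distrib, Finset.sum_add_distrib, mul_assoc,
    ite_mul, one_mul, zero_mul, mul_ite, mul_zero, Finset.sum_ite_eq', Finset.mem_univ, if_true]

/-- Kernel vectors are those orthogonal to all rows. -/
theorem isKer_iff (G : SimpleGraph (Fin n)) (H : SimpleGraph (Fin m))
    (y : Fin n → Fin m → FractionRing (MvPolynomial (Fin n × Fin m) F)) :
    IsKer G H (xx F) y ↔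
      ∀ r : Edge G × Edge H, ∑ v, jacobianRow F G H r v * (fun v => y v.1 v.2) v = 0 := by
  constructor
  · intro h r
    rw [row_dot]
    have := h r.1.1.1 r.1.1.2 r.2.1.1 r.2.1.2 r.1.2.2 r.2.2.2
    linear_combination this
  · intro h i j k l hij hkl
    have key : ∀ i j k l, i < j → k < l → G.Adj i j → H.Adj k l →
        xx F i k * y j l + xx F j l * y i k = xx F i l * y j k + xx F j k * y i l := by
      intro i j k l h1 h2 h3 h4
      have := h (⟨(i, j), h1, h3⟩, ⟨(k, l), h2, h4⟩)
      rw [row_dot] at this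
      simp only at this
      linear_combination this
    rcases lt_or_gt_of_ne hij.ne with h1 | h1 <;> rcases lt_or_gt_of_ne hkl.ne with h2 | h2
    · exact key i j k l h1 h2 hij hkl
    · have := key i j l k h1 h2 hij hkl.symm
      linear_combination -this
    · have := key j i k l h1 h2 hij.symm hkl
      linear_combination -this
    · have := key j i l k h1 h2 hij.symm hkl.symm
      linear_combination this

/-- The rows span everything exactly when the kernel is trivial. -/
theorem span_eq_top_iff (G : SimpleGraph (Fin n)) (H : SimpleGraph (Fin m)) :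
    Submodule.span (FractionRing (MvPolynomial (Fin n × Fin m) F))
      (Set.range (jacobianRow F G H)) = ⊤ ↔ Triv G H (xx F) := by
  classical
  constructor
  · intro htop y hy
    rw [isKer_iff] at hy
    let f : (Fin n × Fin m → FractionRing (MvPolynomial (Fin n × Fin m) F)) →ₗ[
        FractionRing (MvPolynomial (Fin n × Fin m) F)]
        FractionRing (MvPolynomial (Fin n × Fin m) F) :=
      { toFun := fun u => ∑ v, u v * y v.1 v.2
        map_add' := by
          intro u u'
          simp only [Pi.add_apply, add_mul, Finset.sum_add_distrib]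
        map_smul' := by
          intro c u
          simp only [Pi.smul_apply, smul_eq_mul, RingHom.id_apply, Finset.mul_sum, mul_assoc] }
    have hle : Submodule.span (FractionRing (MvPolynomial (Fin n × Fin m) F))
        (Set.range (jacobianRow F G H)) ≤ LinearMap.ker f := by
      rw [Submodule.span_le]
      rintro _ ⟨r, rfl⟩
      exact hy r
    rw [htop] at hle
    intro i k
    have h1 : f (Pi.single (i, k) 1) = 0 := hle Submodule.mem_top
    have h2 : f (Pi.single (i, k) 1) = y i k := by
      change ∑ v, (Pi.single (i, k) 1 : Fin n × Fin m → _) v * y v.1 v.2 = y i k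
      rw [Finset.sum_eq_single (i, k)]
      · simp
      · intro b _ hb
        rw [Pi.single_eq_of_ne hb, zero_mul]
      · intro h; exact absurd (Finset.mem_univ _) h
    rw [← h2, h1]
  · intro htriv
    by_contra hne
    obtain ⟨f, hf0, hf⟩ := Submodule.exists_le_ker_of_lt_top _ (lt_top_iff_ne_top.mpr hne)
    apply hf0
    have hfsum : ∀ u, f u = ∑ v, u v * f (Pi.single v 1) := by
      intro u
      conv_lhs => rw [← Finset.univ_sum_single u]
      rw [map_sum]
      apply Finset.sum_congr rfl
      intro v _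
      have : (Pi.single v (u v) : Fin n × Fin m → FractionRing (MvPolynomial (Fin n × Fin m) F))
          = u v • Pi.single v 1 := by
        rw [← Pi.single_smul, smul_eq_mul, mul_one]
      rw [this, map_smul, smul_eq_mul]
    have hy : IsKer G H (xx F) (fun i k => f (Pi.single (i, k) 1)) := by
      rw [isKer_iff]
      intro r
      have h1 := hfsum (jacobianRow F G H r)
      have h2 : f (jacobianRow F G H r) = 0 := hf (Submodule.subset_span ⟨r, rfl⟩)
      rw [← h1, h2]
    have hz := htriv _ hy
    ext1 v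
    ext
    simp only [LinearMap.coe_comp, LinearMap.coe_single, Function.comp_apply, LinearMap.zero_apply]
    exact hz v.1 v.2

theorem triv_top (h2 : (2 : F) ≠ 0) (hn : 3 ≤ n) (hm : 3 ≤ m) :
    Triv (⊤ : SimpleGraph (Fin n)) (⊤ : SimpleGraph (Fin m)) (xx F) := by
  intro y hy i k
  have param : ∀ (p : ℕ) (_ : 3 ≤ p) (v : Fin p), ∃ φ : ZMod 3 → Fin p,
      Function.Injective φ ∧ φ 0 = v := by
    intro p hp v
    refine ⟨fun s => Equiv.swap (Fin.castLE hp (0 : Fin 3)) v (Fin.castLE hp (s : Fin 3)), ?_, ?_⟩
    · intro s t hst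
      exact Fin.castLE_injective hp ((Equiv.swap _ _).injective hst)
    · exact Equiv.swap_apply_left _ _
  obtain ⟨φ, hφ, hφ0⟩ := param n hn i
  obtain ⟨ψ, hψ, hψ0⟩ := param m hm k
  rw [← hφ0, ← hψ0]
  have hne : ∀ s : ZMod 3, s ≠ s + 1 := by decide
  apply ker_trivial_of_embedded F h2
    (algebraMap (MvPolynomial (Fin n × Fin m) F) (FractionRing (MvPolynomial (Fin n × Fin m) F)))
    (IsFractionRing.injective _ _) 3 3 (by decide) (by decide) le_rfl le_rfl φ hφ ψ hψ y
  intro s t
  exact hy (φ s) (φ (s + 1)) (ψ t) (ψ (t + 1)) (fun h => hne s (hφ h)) (fun h => hne t (hψ h))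

end

theorem two_card_edge {n : ℕ} (G : SimpleGraph (Fin n)) [Fintype (Edge G)] :
    2 * Fintype.card (Edge G) = ∑ v, (G.neighborSet v).ncard := by
  classical
  have h1 : ∀ v, (G.neighborSet v).ncard = (Finset.univ.filter (fun w => G.Adj v w)).card := by
    intro v
    rw [← Set.ncard_coe_finset]
    congr 1
    ext w
    simp
  have h2 : ∑ v, (G.neighborSet v).ncard =
      (Finset.univ.filter (fun p : Fin n × Fin n => G.Adj p.1 p.2)).card := by
    rw [Finset.card_filter, ← Finset.univ_product_univ, Finset.sum_product]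
    apply Finset.sum_congr rfl
    intro v _
    rw [h1, Finset.card_filter]
  have h3 : (Finset.univ.filter (fun p : Fin n × Fin n => G.Adj p.1 p.2)).card =
      (Finset.univ.filter (fun p : Fin n × Fin n => p.1 < p.2 ∧ G.Adj p.1 p.2)).card +
      (Finset.univ.filter (fun p : Fin n × Fin n => p.2 < p.1 ∧ G.Adj p.1 p.2)).card := by
    rw [← Finset.card_union_of_disjoint]
    · congr 1
      ext p
      simp only [Finset.mem_filter, Finset.mem_univ, true_and, Finset.mem_union]
      constructor
      · intro h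
        rcases lt_or_gt_of_ne h.ne with h' | h'
        · exact Or.inl ⟨h', h⟩
        · exact Or.inr ⟨h', h⟩
      · rintro (h | h) <;> exact h.2
    · rw [Finset.disjoint_filter]
      intro p _ h1 h2
      exact absurd h1.1 (not_lt.mpr h2.1.le)
  have h4 : (Finset.univ.filter (fun p : Fin n × Fin n => p.2 < p.1 ∧ G.Adj p.1 p.2)).card =
      (Finset.univ.filter (fun p : Fin n × Fin n => p.1 < p.2 ∧ G.Adj p.1 p.2)).card := by
    apply Finset.card_bij (fun p _ => (p.2, p.1))
    · intro p hp
      simp only [Finset.mem_filter, Finset.mem_univ, true_and] at hp ⊢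
      exact ⟨hp.1, hp.2.symm⟩
    · rintro ⟨a, b⟩ _ ⟨c, d⟩ _ h
      simp only [Prod.mk.injEq] at h ⊢
      exact ⟨h.2, h.1⟩
    · rintro ⟨a, b⟩ hp
      simp only [Finset.mem_filter, Finset.mem_univ, true_and] at hp
      refine ⟨(b, a), ?_, rfl⟩
      simp only [Finset.mem_filter, Finset.mem_univ, true_and]
      exact ⟨hp.1, hp.2.symm⟩
  have h5 : Fintype.card (Edge G) =
      (Finset.univ.filter (fun p : Fin n × Fin n => p.1 < p.2 ∧ G.Adj p.1 p.2)).card :=
    Fintype.card_subtype _
  rw [h2, h3, h4, h5]
  ring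

/-- The pair `(G,H)` has the basis property if and only if each of `G` and `H` is a
vertex-disjoint union of cycles of odd length. -/
theorem result (F : Type*) [Field F] (h2 : (2 : F) ≠ 0) (n m : ℕ) (hn : 3 ≤ n) (hm : 3 ≤ m)
    (G : SimpleGraph (Fin n)) (H : SimpleGraph (Fin m)) :
    BasisProperty F G H ↔ IsUnionOfOddCycles G ∧ IsUnionOfOddCycles H := by
  classical
  have htop : Submodule.span (FractionRing (MvPolynomial (Fin n × Fin m) F))
      (Set.range (jacobianRow F (⊤ : SimpleGraph (Fin n)) (⊤ : SimpleGraph (Fin m)))) = ⊤ :=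
    (span_eq_top_iff _ _).mpr (triv_top h2 hn hm)
  have hfin : Module.finrank (FractionRing (MvPolynomial (Fin n × Fin m) F))
      (Fin n × Fin m → FractionRing (MvPolynomial (Fin n × Fin m) F)) = n * m := by
    rw [Module.finrank_fintype_fun_eq_card, Fintype.card_prod, Fintype.card_fin, Fintype.card_fin]
  unfold BasisProperty
  rw [htop]
  constructor
  · rintro ⟨hli, hspan⟩
    have htriv := (span_eq_top_iff G H).mp hspan
    have hcard : Fintype.card (Edge G) * Fintype.card (Edge H) = n * m := by
      have := Module.finrank_eq_card_basis (Module.Basis.mk hli hspan.ge)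
      rw [hfin, Fintype.card_prod] at this
      exact this.symm
    have hdegH : ∀ k, ∃ l1 l2, l1 ≠ l2 ∧ H.Adj k l1 ∧ H.Adj k l2 := fun k =>
      htriv.exists_two (fun i k => xx_ne_zero i k) ⟨0, by omega⟩ k
    have hdegG : ∀ k, ∃ l1 l2, l1 ≠ l2 ∧ G.Adj k l1 ∧ G.Adj k l2 := fun k =>
      htriv.symm.exists_two (fun k i => xx_ne_zero i k) ⟨0, by omega⟩ k
    have hge : ∀ (p : ℕ) (Γ : SimpleGraph (Fin p)),
        (∀ k, ∃ l1 l2, l1 ≠ l2 ∧ Γ.Adj k l1 ∧ Γ.Adj k l2) → ∀ k, 2 ≤ (Γ.neighborSet k).ncard := by
      intro p Γ h k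
      obtain ⟨l1, l2, hne, ha1, ha2⟩ := h k
      rw [← Set.ncard_pair hne]
      apply Set.ncard_le_ncard _ (Set.toFinite _)
      rintro u (rfl | rfl)
      · exact ha1
      · exact ha2
    have hcG : n ≤ Fintype.card (Edge G) := by
      have h3 := two_card_edge G
      have h4 : ∑ v : Fin n, 2 ≤ ∑ v, (G.neighborSet v).ncard :=
        Finset.sum_le_sum (fun v _ => hge n G hdegG v)
      simp only [Finset.sum_const, Finset.card_univ, Fintype.card_fin, smul_eq_mul] at h4
      omega
    have hcH : m ≤ Fintype.card (Edge H) := by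
      have h3 := two_card_edge H
      have h4 : ∑ v : Fin m, 2 ≤ ∑ v, (H.neighborSet v).ncard :=
        Finset.sum_le_sum (fun v _ => hge m H hdegH v)
      simp only [Finset.sum_const, Finset.card_univ, Fintype.card_fin, smul_eq_mul] at h4
      omega
    have hcG' : Fintype.card (Edge G) = n := by
      refine le_antisymm ?_ hcG
      by_contra hlt
      push Not at hlt
      have : n * m < Fintype.card (Edge G) * Fintype.card (Edge H) :=
        Nat.mul_lt_mul_of_lt_of_le hlt hcH (by omega)
      omega
    have hcH' : Fintype.card (Edge H) = m := by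
      rw [hcG'] at hcard
      exact Nat.eq_of_mul_eq_mul_left (by omega) hcard
    have heq : ∀ (p : ℕ) (Γ : SimpleGraph (Fin p)), Fintype.card (Edge Γ) = p →
        (∀ k, 2 ≤ (Γ.neighborSet k).ncard) →
        ∀ k, ∃ l1 l2, l1 ≠ l2 ∧ Γ.neighborSet k = {l1, l2} := by
      intro p Γ hc h2 k
      have h3 := two_card_edge Γ
      have h4 : ∑ v : Fin p, 2 = ∑ v, (Γ.neighborSet v).ncard := by
        rw [← h3, hc]
        simp only [Finset.sum_const, Finset.card_univ, Fintype.card_fin, smul_eq_mul]
        ring
      have h5 := (Finset.sum_eq_sum_iff_of_le (fun v _ => h2 v)).mp h4 k (Finset.mem_univ _)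
      obtain ⟨l1, l2, hne, hN⟩ := Set.ncard_eq_two.mp h5.symm
      exact ⟨l1, l2, hne, hN⟩
    constructor
    · apply oddCycles_of (K := FractionRing (MvPolynomial (Fin n × Fin m) F))
        (heq n G hcG' (hge n G hdegG))
      intro ε hε
      exact htriv.symm.sign (fun k i => xx_ne_zero i k) ⟨0, by omega⟩ ε hε
    · apply oddCycles_of (K := FractionRing (MvPolynomial (Fin n × Fin m) F))
        (heq m H hcH' (hge m H hdegH))
      intro ε hε
      exact htriv.sign (fun i k => xx_ne_zero i k) ⟨0, by omega⟩ ε hε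
  · rintro ⟨hG, hH⟩
    have htriv : Triv G H (xx F) := triv_of_oddCycles F h2
      (algebraMap (MvPolynomial (Fin n × Fin m) F) (FractionRing (MvPolynomial (Fin n × Fin m) F)))
      (IsFractionRing.injective _ _) hG hH
    have hspan := (span_eq_top_iff G H).mpr htriv
    refine ⟨?_, hspan⟩
    apply linearIndependent_of_top_le_span_of_card_eq_finrank hspan.ge
    have hc : ∀ (p : ℕ) (Γ : SimpleGraph (Fin p)), OddCycles Γ → Fintype.card (Edge Γ) = p := by
      intro p Γ h
      have h3 := two_card_edge Γ
      have h4 : ∀ v, (Γ.neighborSet v).ncard = 2 := by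
        intro v
        obtain ⟨l1, l2, hne, hN⟩ := h.neighbors v
        rw [hN, Set.ncard_pair hne]
      simp only [h4, Finset.sum_const, Finset.card_univ, Fintype.card_fin, smul_eq_mul] at h3
      omega
    rw [hfin, Fintype.card_prod, hc n G hG, hc m H hH]

end Pool.Agent.Results.MP_305ad1_co.OddCycles
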